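import Mathlib

/-!
# Block structure of solutions of the Yang-Baxter equation of size `p ^ 2`: `p = 3`

On `X = Y × Z`, `Y = Z = ℤ/3`, consider `σ_(y,z)(y',z') = (y' + z, z' + f(y' + z - y))` with
`f(0) = 0`, `f(1) = f(2) = 1`. It is an indecomposable and irretractable involutive non-degenerate
solution. Here `β_(y,z)(y') = y' + z` and `α_(y,z,y')(z') = z' + f(y' + z - y)`. Since `f(1) = f(2)`,
there are `y, z, z', y', y''` with `α_(y,z,y') = α_(y,z',y'')` and `β_(y,z)(y') ≠ β_(y,z')(y'')`, so the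
equivalence of Q2 fails, and this remains true after any renaming of the elements of the fibres.
The equality of Q1 depends on the names of the elements of the fibres: it holds for this solution,
and it fails after the names `0` and `1` have been exchanged in one fibre.
-/

set_option autoImplicit false

namespace Pool.Agent.Results.MP_a65784_al.BlockStructure

/-- The map `r (x, y) = (σ_x(y), σ⁻¹_(σ_x(y))(x))`. -/
def rMap {X : Type} (sigma : X → Equiv.Perm X) (p : X × X) : X × X :=
  (sigma p.1 p.2, (sigma (sigma p.1 p.2)).symm p.1)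

/-- The map `r₁₂` on triples. -/
def r12 {X : Type} (sigma : X → Equiv.Perm X) (q : X × X × X) : X × X × X :=
  ((rMap sigma (q.1, q.2.1)).1, (rMap sigma (q.1, q.2.1)).2, q.2.2)

/-- The map `r₂₃` on triples. -/
def r23 {X : Type} (sigma : X → Equiv.Perm X) (q : X × X × X) : X × X × X :=
  (q.1, rMap sigma q.2)

/-- The braid relation `r₁₂ r₂₃ r₁₂ = r₂₃ r₁₂ r₂₃` for the map
`r (x, y) = (σ_x(y), σ⁻¹_(σ_x(y))(x))`. -/
def Braid {X : Type} (sigma : X → Equiv.Perm X) : Prop :=
  ∀ q : X × X × X, r12 sigma (r23 sigma (r12 sigma q)) = r23 sigma (r12 sigma (r23 sigma q))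

/-- An involutive non-degenerate solution on the set `X`, given by the permutations
`sigma x = σ_x`: `r (x, y) = (σ_x(y), σ⁻¹_(σ_x(y))(x))` satisfies the braid relation. -/
structure InvSolution (X : Type) where
  /-- the permutations `σ_x` -/
  sigma : X → Equiv.Perm X
  /-- the braid relation -/
  braid : Braid sigma

/-- The group `𝒢(X, r)` generated by the `σ_x` acts transitively. -/
def Indecomposable {X : Type} (S : InvSolution X) : Prop :=
  ∀ x y : X, ∃ g ∈ Subgroup.closure (Set.range S.sigma), g x = y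

/-- `σ_x ≠ σ_x'` for `x ≠ x'`. -/
def Irretractable {X : Type} (S : InvSolution X) : Prop :=
  ∀ x x' : X, x ≠ x' → S.sigma x ≠ S.sigma x'

/-- The permutations `β_(y,z)` of `Y` and `α_(y,z,y')` of `Z` of a solution on `Y × Z` for which the
fibres `X_y` are blocks: `σ_(y,z)(y',z') = (β_(y,z)(y'), α_(y,z,y')(z'))`. -/
structure BlockData {Y Z : Type} (S : InvSolution (Y × Z)) where
  /-- `β_(y,z)` -/
  β : Y → Z → Equiv.Perm Y
  /-- `α_(y,z,y')` -/
  α : Y → Z → Y → Equiv.Perm Z
  /-- the defining equation -/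
  eq : ∀ (y : Y) (z : Z) (y' : Y) (z' : Z), S.sigma (y, z) (y', z') = (β y z y', α y z y' z')

/-- The statement of Q1. -/
def StatementQ1 : Prop :=
  ∀ (p : ℕ) (Y Z : Type) (S : InvSolution (Y × Z)) (D : BlockData S), p.Prime → Nat.card Y = p →
    Nat.card Z = p → Indecomposable S → Irretractable S → ∀ (y y' : Y) (z : Z), D.β y z = D.β y' z

/-- The statement of Q2. -/
def StatementQ2 : Prop :=
  ∀ (p : ℕ) (Y Z : Type) (S : InvSolution (Y × Z)) (D : BlockData S), p.Prime → Nat.card Y = p →
    Nat.card Z = p → Indecomposable S → Irretractable S → ∀ (y y' y'' : Y) (z z' : Z),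
      D.α y z y' = D.α y z' y'' ↔ D.β y z y' = D.β y z' y''

/-- The permutations `e σ_(e⁻¹ x) e⁻¹`. -/
def renameSigma {X : Type} (s : X → Equiv.Perm X) (e : Equiv.Perm X) (x : X) : Equiv.Perm X :=
  (e.symm.trans (s (e.symm x))).trans e

theorem rename_braid {X : Type} (S : InvSolution X) (e : Equiv.Perm X) :
    Braid (renameSigma S.sigma e) := by
  rintro ⟨x, y, z⟩
  have h := S.braid (e.symm x, e.symm y, e.symm z)
  simp only [r12, r23, rMap, Prod.mk.injEq] at h
  obtain ⟨h1, h2, h3⟩ := h
  simp only [r12, r23, rMap, renameSigma, Prod.mk.injEq, Equiv.trans_apply, Equiv.symm_trans_apply,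
    Equiv.symm_symm, Equiv.symm_apply_apply, EmbeddingLike.apply_eq_iff_eq]
  exact ⟨h1, h2, h3⟩

/-- Solution obtained by renaming the elements with a permutation `e` of the set. -/
def rename {X : Type} (S : InvSolution X) (e : Equiv.Perm X) : InvSolution X where
  sigma := renameSigma S.sigma e
  braid := rename_braid S e

/-- the set `ℤ/3` -/
abbrev T : Type := Fin 3

/-- the function `f` -/
def f (t : T) : T := if t = 0 then 0 else 1

theorem sg_left (p q : T × T) : (q.1 + p.2 - p.2,
    q.2 + f (q.1 + p.2 - p.1) - f (q.1 + p.2 - p.1)) = q := by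
  revert p q
  decide +kernel

theorem sg_right (p q : T × T) : (q.1 - p.2 + p.2,
    q.2 - f (q.1 - p.1) + f (q.1 - p.2 + p.2 - p.1)) = q := by
  revert p q
  decide +kernel

/-- `σ_(y,z)(y',z') = (y' + z, z' + f(y' + z - y))` -/
def sg (p : T × T) : Equiv.Perm (T × T) where
  toFun q := (q.1 + p.2, q.2 + f (q.1 + p.2 - p.1))
  invFun q := (q.1 - p.2, q.2 - f (q.1 - p.1))
  left_inv := sg_left p
  right_inv := sg_right p

theorem sg_braid : Braid sg := by
  have h : ∀ x y z : T × T,
      r12 sg (r23 sg (r12 sg (x, y, z))) = r23 sg (r12 sg (r23 sg (x, y, z))) := by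
    decide +kernel
  rintro ⟨x, y, z⟩
  exact h x y z

/-- The solution of order `9`. -/
def S₀ : InvSolution (T × T) where
  sigma := sg
  braid := sg_braid

/-- the renaming by permutations `γ_y` of the fibres: `(y, z) ↦ (y, γ_y(z))` -/
def fib (γ : T → Equiv.Perm T) : Equiv.Perm (T × T) where
  toFun p := (p.1, γ p.1 p.2)
  invFun p := (p.1, (γ p.1).symm p.2)
  left_inv p := by simp
  right_inv p := by simp

/-- translation -/
def tr (t : T) : Equiv.Perm T where
  toFun x := x + t
  invFun x := x - t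
  left_inv x := by simp
  right_inv x := by simp

/-- The block data of `S₀` after renaming the elements of the fibres by `γ`. -/
def D₀ (γ : T → Equiv.Perm T) : BlockData (rename S₀ (fib γ)) where
  β y z := tr ((γ y).symm z)
  α y z y' := ((γ y').symm.trans (tr (f (y' + (γ y).symm z - y)))).trans (γ (y' + (γ y).symm z))
  eq y z y' z' := by
    simp [rename, renameSigma, S₀, sg, fib, tr]

theorem indec (γ : T → Equiv.Perm T) : Indecomposable (rename S₀ (fib γ)) := by
  have h0 : ∀ x y : T × T, ∃ a b c : T × T, sg a (sg b (sg c x)) = y := by decide +kernel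
  intro x y
  obtain ⟨a, b, c, h⟩ := h0 ((fib γ).symm x) ((fib γ).symm y)
  set S := rename S₀ (fib γ) with hS
  refine ⟨S.sigma (fib γ a) * (S.sigma (fib γ b) * S.sigma (fib γ c)), ?_, ?_⟩
  · exact Subgroup.mul_mem _ (Subgroup.subset_closure ⟨_, rfl⟩)
      (Subgroup.mul_mem _ (Subgroup.subset_closure ⟨_, rfl⟩) (Subgroup.subset_closure ⟨_, rfl⟩))
  · rw [hS]
    simp only [rename, renameSigma, S₀, Equiv.Perm.mul_apply, Equiv.trans_apply, Equiv.symm_apply_apply]
    rw [h, Equiv.apply_symm_apply]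

theorem irret (γ : T → Equiv.Perm T) : Irretractable (rename S₀ (fib γ)) := by
  have h0 : ∀ x x' : T × T, x ≠ x' → ∃ y, sg x y ≠ sg x' y := by decide +kernel
  intro x x' hne heq
  obtain ⟨y, hy⟩ := h0 ((fib γ).symm x) ((fib γ).symm x')
    (fun h => hne ((fib γ).symm.injective h))
  have h1 := congrArg (fun e : Equiv.Perm (T × T) => e (fib γ y)) heq
  simp only [rename, renameSigma, S₀, Equiv.trans_apply, Equiv.symm_apply_apply] at h1
  exact hy ((fib γ).injective h1)

/-- After every renaming of the elements of the fibres the equivalence of Q2 fails. -/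
theorem q2_fails (γ : T → Equiv.Perm T) : ∃ (y y' y'' : T) (z z' : T),
    ¬ ((D₀ γ).α y z y' = (D₀ γ).α y z' y'' ↔ (D₀ γ).β y z y' = (D₀ γ).β y z' y'') := by
  by_contra hc
  push Not at hc
  have h1 : ∀ y y' y'' z z' : T, (D₀ γ).α y z y' = (D₀ γ).α y z' y'' ↔
      (D₀ γ).β y z y' = (D₀ γ).β y z' y'' := hc
  -- the fibre names coincide
  have hβ : ∀ y z y', (D₀ γ).β y (γ y z) y' = y' + z := by
    intro y z y'; simp [D₀, tr]
  have hα : ∀ y z y' w, (D₀ γ).α y (γ y z) y' (γ y' w) = γ (y' + z) (w + f (y' + z - y)) := by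
    intro y z y' w; simp [D₀, tr]
  -- same target: equal alpha
  have hsame : ∀ (y z y' z₂ y₂ : T), y' + z = y₂ + z₂ → ∀ w,
      (D₀ γ).α y (γ y z) y' w = (D₀ γ).α y (γ y z₂) y₂ w := by
    intro y z y' z₂ y₂ h w
    rw [(h1 y y' y₂ (γ y z) (γ y z₂)).2 (by rw [hβ, hβ, h])]
  have hγ : ∀ y' y₂ : T, γ y' = γ y₂ := by
    intro y' y₂
    apply Equiv.ext
    intro w
    have e1 := hsame 0 (0 - y') y' (0 - y₂) y₂ (by simp) (γ y' w)
    rw [hα] at e1
    have e2 := hα 0 (0 - y₂) y₂ ((γ y₂).symm (γ y' w))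
    rw [Equiv.apply_symm_apply] at e2
    rw [e2] at e1
    have e3 : y' + (0 - y') = 0 := by simp
    have e4 : y₂ + (0 - y₂) = 0 := by simp
    rw [e3, e4] at e1
    have e5 := (γ 0).injective e1
    have e6 : w = (γ y₂).symm (γ y' w) := add_right_cancel e5
    rw [Equiv.eq_symm_apply] at e6
    exact e6.symm
  -- different targets with the same value of `f`
  have h2 : (D₀ γ).α 0 (γ 0 1) 0 = (D₀ γ).α 0 (γ 0 2) 0 := by
    apply Equiv.ext
    intro w
    have e1 := hα 0 1 0 ((γ 0).symm w)
    have e2 := hα 0 2 0 ((γ 0).symm w)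
    rw [Equiv.apply_symm_apply] at e1 e2
    rw [e1, e2, hγ (0 + 1) (0 + 2)]
    rfl
  have h3 := (h1 0 0 0 (γ 0 1) (γ 0 2)).1 h2
  rw [hβ, hβ] at h3
  exact absurd h3 (by decide)

/-- **Q1 and Q2 are false as stated, for `p = 3`.** (1) and (2) are the negations of the two
statements. (3) For the solution `S₀` on `ℤ/3 × ℤ/3` the equivalence of Q2 fails, for some
`y, y', y'', z, z'`, after every renaming of the elements of the fibres. -/
theorem result : ¬ StatementQ1 ∧ ¬ StatementQ2 ∧
    ∀ γ : T → Equiv.Perm T, Indecomposable (rename S₀ (fib γ)) ∧ Irretractable (rename S₀ (fib γ)) ∧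
      ∀ D : BlockData (rename S₀ (fib γ)), ∃ (y y' y'' : T) (z z' : T),
        ¬ (D.α y z y' = D.α y z' y'' ↔ D.β y z y' = D.β y z' y'') := by
  have hcard : Nat.card T = 3 := by simp [Nat.card_eq_fintype_card]
  have huniq : ∀ (γ : T → Equiv.Perm T) (D : BlockData (rename S₀ (fib γ))),
      (∀ y z, D.β y z = (D₀ γ).β y z) ∧ ∀ y z y', D.α y z y' = (D₀ γ).α y z y' := by
    intro γ D
    constructor
    · intro y z
      apply Equiv.ext
      intro y'
      have h := (D.eq y z y' 0).symm.trans ((D₀ γ).eq y z y' 0)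
      exact congrArg Prod.fst h
    · intro y z y'
      apply Equiv.ext
      intro z'
      have h := (D.eq y z y' z').symm.trans ((D₀ γ).eq y z y' z')
      exact congrArg Prod.snd h
  refine ⟨?_, ?_, ?_⟩
  · intro h
    let γ : T → Equiv.Perm T := fun y => if y = 0 then Equiv.swap 0 1 else Equiv.refl T
    have h1 := h 3 T T (rename S₀ (fib γ)) (D₀ γ) Nat.prime_three hcard hcard (indec γ) (irret γ)
      0 1 0
    have h2 := congrArg (fun e : Equiv.Perm T => e 0) h1
    simp [D₀, γ, tr] at h2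
  · intro h
    obtain ⟨y, y', y'', z, z', h1⟩ := q2_fails (fun _ => Equiv.refl T)
    exact h1 (h 3 T T _ (D₀ _) Nat.prime_three hcard hcard (indec _) (irret _) y y' y'' z z')
  · intro γ
    refine ⟨indec γ, irret γ, fun D => ?_⟩
    obtain ⟨y, y', y'', z, z', h1⟩ := q2_fails γ
    refine ⟨y, y', y'', z, z', ?_⟩
    rw [(huniq γ D).1, (huniq γ D).1, (huniq γ D).2, (huniq γ D).2]
    exact h1

end Pool.Agent.Results.MP_a65784_al.BlockStructure
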